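import Mathlib
import Pool.Agent.Lib.MP_c37615_al.Defs2

/-!
MP_c37615_al (S02984), part C: definitions used in section 5 (sorry-free, never change this file)
-/

set_option autoImplicit false

open Filter Topology
open scoped ContDiff

namespace C37.PC

/-- saturation of a set under a family of maps (points of the orbits of `C`) -/
def sat {Γ E : Type} (a : Γ → E → E) (C : Set E) : Set E := {x | ∃ g, x ∈ a g '' C}

/-- the subgroup `D` has finite index: `Γ = D F` with `F` finite -/
def FinIdx {Γ : Type} [Group Γ] (D : Subgroup Γ) : Prop :=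
  ∃ F : Finset Γ, ∀ γ : Γ, ∃ δ ∈ D, ∃ f ∈ F, γ = δ * f

/-- commensurability of elements -/
def Csr {Γ : Type} [Group Γ] (α β : Γ) : Prop := ∃ m n : ℤ, m ≠ 0 ∧ n ≠ 0 ∧ α ^ m = β ^ n

/-- the matrix of an element of `GG` -/
def mat (g : GG) : Mat := ((g : GL (Fin 7) ℝ) : Mat)

theorem mat_one : mat 1 = 1 := rfl

theorem mat_mul (g h : GG) : mat (g * h) = mat g * mat h := rfl

theorem mat_inv (g : GG) : mat g⁻¹ = (mat g)⁻¹ := by
  unfold mat
  rw [Subgroup.coe_inv, Matrix.coe_units_inv]

theorem mat_mul_inv (g : GG) : mat g * mat g⁻¹ = 1 := by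
  rw [← mat_mul, mul_inv_cancel, mat_one]

theorem mat_inv_mul (g : GG) : mat g⁻¹ * mat g = 1 := by
  rw [← mat_mul, inv_mul_cancel, mat_one]

theorem mat_injective : Function.Injective mat := by
  intro g h hgh
  apply Subtype.ext
  exact Units.ext hgh

theorem mat_inG (g : GG) : InG (mat g) := g.2

/-- Frobenius norm -/
noncomputable def fro (A : Mat) : ℝ := Real.sqrt (∑ i, ∑ j, A i j ^ 2)

/-- the conjugate `g⁻¹ γ g` is `ε`-close to `1` -/
def Small (ε : ℝ) (g γ : GG) : Prop := fro (mat (g⁻¹ * γ * g) - 1) < ε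

/-- the properties of the model `G → G / K = R^8` (GX_model) -/
structure Model (act : GG → X → X) (p : GG → X) (s : X → GG) : Prop where
  p_cont : Continuous p
  s_cont : Continuous s
  p_s : ∀ x, p (s x) = x
  p_mul : ∀ g h, p (g * h) = act g (p h)
  smooth : ∀ g, ContDiff ℝ ∞ (act g)
  pos : ∀ g x, 0 < (fderiv ℝ (act g) x).det
  p_eq : ∀ g h, p g = p h ↔ g⁻¹ * h ∈ Kset
  K_comp : IsCompact Kset

/-- a homomorphism `L : Γ → G` with discrete image and finite kernel (in the application injective) -/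
def Disc {Γ : Type} [Group Γ] (L : Γ →* GG) : Prop :=
  ∀ K : Set GG, IsCompact K → {γ : Γ | L γ ∈ K}.Finite

end C37.PC
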