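import Mathlib
import Pool.Agent.Lib.MP_c37615_al.C.Base

set_option autoImplicit false

open Filter Topology
open scoped ContDiff

namespace C37.PC

section
attribute [local instance] Matrix.frobeniusNormedAddCommGroup Matrix.frobeniusNormedSpace
  Matrix.frobeniusNormedRing

private theorem F01_eq (A : Mat) : fro A = ‖A‖ := by
  rw [Matrix.frobenius_norm_def]
  unfold fro
  rw [Real.sqrt_eq_rpow]
  congr 1
  refine Finset.sum_congr rfl fun i _ => Finset.sum_congr rfl fun j _ => ?_
  rw [Real.norm_eq_abs]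
  simp

/-- Basic properties of the Frobenius norm `fro`. -/
theorem fro_nonneg (A : Mat) : 0 ≤ fro A := Real.sqrt_nonneg _

theorem fro_sq (A : Mat) : fro A ^ 2 = ∑ i, ∑ j, A i j ^ 2 := by
  unfold fro
  rw [Real.sq_sqrt]
  exact Finset.sum_nonneg fun i _ => Finset.sum_nonneg fun j _ => sq_nonneg _

theorem fro_add (A B : Mat) : fro (A + B) ≤ fro A + fro B := by
  simp only [F01_eq]
  exact norm_add_le A B

theorem fro_neg (A : Mat) : fro (-A) = fro A := by
  simp only [F01_eq]
  exact norm_neg A

theorem fro_smul (c : ℝ) (A : Mat) : fro (c • A) = |c| * fro A := by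
  simp only [F01_eq]
  rw [norm_smul, Real.norm_eq_abs]

theorem fro_mul (A B : Mat) : fro (A * B) ≤ fro A * fro B := by
  simp only [F01_eq]
  exact Matrix.frobenius_norm_mul A B

theorem fro_eq_zero (A : Mat) : fro A = 0 ↔ A = 0 := by
  rw [F01_eq]
  exact norm_eq_zero

end

theorem fro_continuous : Continuous fro := by
  unfold fro
  fun_prop

theorem entry_le_fro (A : Mat) (i j : Fin 7) : |A i j| ≤ fro A := by
  rw [← abs_of_nonneg (fro_nonneg A)]
  apply sq_le_sq.mp
  rw [fro_sq]
  calc A i j ^ 2 ≤ ∑ j, A i j ^ 2 :=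
        Finset.single_le_sum (f := fun j => A i j ^ 2) (fun j _ => sq_nonneg _) (Finset.mem_univ j)
    _ ≤ ∑ i, ∑ j, A i j ^ 2 :=
        Finset.single_le_sum (f := fun i => ∑ j, A i j ^ 2)
          (fun i _ => Finset.sum_nonneg fun j _ => sq_nonneg _) (Finset.mem_univ i)

end C37.PC
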